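import Pool.Agent.H300R2.WEH.FamB

/-!
Scale lemma: for each `N` there are few exceptional classes outside which the error terms of the prime
number theorem for progressions with lengths `y(q) ≤ N` are small on average over ALL moduli.
-/

set_option autoImplicit false

namespace Pool.Agent.Y856

open Finset
open Pool.Agent.H300R2.WEH

/-- `π(y)` -/
noncomputable def pi1 (y : ℕ) : ℝ := (((Icc 1 y).filter (fun p : ℕ => p.Prime)).card : ℝ)

/-- `π(y; q, a)` -/
noncomputable def pi2 (y q a : ℕ) : ℝ :=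
  (((Icc 1 y).filter (fun p : ℕ => p.Prime ∧ p ≡ a [MOD q])).card : ℝ)

/-- `|π(y; q, a) - π(y)/φ(q)|` -/
noncomputable def dev (y q a : ℕ) : ℝ := |pi2 y q a - pi1 y / (Nat.totient q : ℝ)|

lemma dev_nonneg (y q a : ℕ) : 0 ≤ dev y q a := abs_nonneg _

lemma pi1_nonneg (y : ℕ) : 0 ≤ pi1 y := Nat.cast_nonneg _

lemma pi1_le (y : ℕ) : pi1 y ≤ y := by
  unfold pi1
  have : ((Icc 1 y).filter (fun p : ℕ => p.Prime)).card ≤ (Icc 1 y).card := card_filter_le _ _
  rw [Nat.card_Icc, Nat.add_sub_cancel] at this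
  exact_mod_cast this

lemma pi2_nonneg (y q a : ℕ) : 0 ≤ pi2 y q a := Nat.cast_nonneg _

lemma pi2_le (y q a : ℕ) (hq : 1 ≤ q) : pi2 y q a ≤ (y : ℝ) / q + 1 := by
  refine le_trans ?_ (H343E.card_mod y q a hq)
  unfold pi2
  have : ((Icc 1 y).filter (fun p => p.Prime ∧ p ≡ a [MOD q])).card ≤
      ((Icc 1 y).filter (fun m => m ≡ a [MOD q])).card := by
    apply card_le_card
    intro p hp
    rw [mem_filter] at hp ⊢
    exact ⟨hp.1, hp.2.2⟩
  exact_mod_cast this

lemma dev_triv (N y q a : ℕ) (hy : y ≤ N) (hq : 1 ≤ q) (hqN : q ≤ N) :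
    dev y q a ≤ 2 * N / (Nat.totient q : ℝ) := by
  have hφ : (1 : ℝ) ≤ Nat.totient q := by exact_mod_cast Nat.totient_pos.mpr (by omega)
  have hφ0 : (0 : ℝ) < Nat.totient q := by linarith
  have hφq : (Nat.totient q : ℝ) ≤ q := by exact_mod_cast Nat.totient_le q
  have hqr : (0 : ℝ) < q := by linarith
  have hqNr : (q : ℝ) ≤ N := by exact_mod_cast hqN
  have hyr : (y : ℝ) ≤ N := by exact_mod_cast hy
  have hN0 : (0 : ℝ) ≤ N := Nat.cast_nonneg _
  have h1 : pi2 y q a ≤ 2 * N / (Nat.totient q : ℝ) := by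
    calc pi2 y q a ≤ (y : ℝ) / q + 1 := pi2_le y q a hq
      _ ≤ N / q + N / q := by
          apply add_le_add
          · gcongr
          · rw [le_div_iff₀ hqr]; linarith
      _ = 2 * N / q := by ring
      _ ≤ 2 * N / (Nat.totient q : ℝ) := by gcongr
  have h2 : pi1 y / (Nat.totient q : ℝ) ≤ 2 * N / (Nat.totient q : ℝ) := by
    have := pi1_le y
    gcongr
    linarith
  have h3 := pi2_nonneg y q a
  have h4 : 0 ≤ pi1 y / (Nat.totient q : ℝ) := div_nonneg (pi1_nonneg y) hφ0.le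
  unfold dev
  rw [abs_le]
  constructor <;> linarith

lemma dev_small (y q a : ℕ) (hy : y < 2) : dev y q a = 0 := by
  have h1 : ∀ P : ℕ → Prop, ∀ _ : DecidablePred P, (∀ p, P p → p.Prime) → ((Icc 1 y).filter P) = ∅ := by
    intro P _ hP
    rw [filter_eq_empty_iff]
    intro p hp h
    have := (hP p h).two_le
    rw [mem_Icc] at hp
    omega
  unfold dev pi2 pi1
  rw [h1 _ _ (fun p h => h.1), h1 _ _ (fun p h => h)]
  simp

lemma piR_nat (y q a : ℕ) : (piR (y : ℝ) q a : ℝ) = pi2 y q a := by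
  unfold piR pi2
  rw [Nat.floor_natCast]

lemma pi2_one (y : ℕ) : pi2 y 1 0 = pi1 y := by
  unfold pi2 pi1
  congr 2
  apply filter_congr
  intro p _
  simp [Nat.modEq_one]

lemma li_bd (y : ℝ) (hy2 : 2 ≤ y) : |∫ t in (2 : ℝ)..y, 1 / Real.log t| ≤ 2 * y := by
  have h := intervalIntegral.norm_integral_le_of_norm_le_const (a := (2 : ℝ)) (b := y)
    (f := fun t => 1 / Real.log t) (C := 2) (by
      intro t ht
      rw [Set.uIoc_of_le hy2] at ht
      have h3 : Real.log 2 ≤ Real.log t := Real.log_le_log (by norm_num) ht.1.le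
      have := Real.log_two_gt_d9
      rw [Real.norm_eq_abs, abs_of_pos (by
        have : 0 < Real.log t := by linarith
        positivity), div_le_iff₀ (by linarith)]
      linarith)
  rw [Real.norm_eq_abs] at h
  refine h.trans ?_
  rw [abs_of_nonneg (by linarith)]
  linarith

lemma err_bd (N d l : ℕ) (hd : 1 ≤ d) (y : ℝ) (hy2 : 2 ≤ y) (hyN : y ≤ N) :
    err y d l ≤ 3 * N := by
  have hφ : (1 : ℝ) ≤ Nat.totient d := by exact_mod_cast Nat.totient_pos.mpr (by omega)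
  have h1 : (piR y d l : ℝ) ≤ N := by
    have h2 : piR y d l ≤ ⌊y⌋₊ := by
      unfold piR
      refine (card_filter_le _ _).trans ?_
      simp
    have h3 : ((⌊y⌋₊ : ℕ) : ℝ) ≤ y := Nat.floor_le (by linarith)
    have h4 : (piR y d l : ℝ) ≤ (⌊y⌋₊ : ℕ) := by exact_mod_cast h2
    linarith
  have h5 := li_bd y hy2
  have h6 : |(∫ t in (2 : ℝ)..y, 1 / Real.log t) / (Nat.totient d : ℝ)| ≤ 2 * N := by
    rw [abs_div, abs_of_pos (by linarith : (0 : ℝ) < Nat.totient d)]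
    have h7 := div_le_self (abs_nonneg (∫ t in (2 : ℝ)..y, 1 / Real.log t)) hφ
    linarith
  unfold err
  have h8 : (0 : ℝ) ≤ piR y d l := Nat.cast_nonneg _
  rw [abs_le] at h6 ⊢
  constructor <;> linarith [h6.1, h6.2]

lemma err_le_errMax (N d l : ℕ) (hd : 1 ≤ d) (y : ℝ) (hy2 : 2 ≤ y) (hyN : y ≤ N) :
    err y d l ≤ errMax N d l := by
  unfold errMax
  refine le_ciSup (f := fun y : Set.Icc (2 : ℝ) N => err y d l) ?_ ⟨y, hy2, hyN⟩
  refine ⟨3 * N, ?_⟩
  rintro _ ⟨⟨z, hz2, hzN⟩, rfl⟩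
  exact err_bd N d l hd z hz2 hzN

lemma dev_le (N y q a : ℕ) (hq : 1 ≤ q) (hy2 : 2 ≤ y) (hy : y ≤ N) :
    dev y q a ≤ errMax N q a + errMax N 1 0 / (Nat.totient q : ℝ) := by
  have hφ : (1 : ℝ) ≤ Nat.totient q := by exact_mod_cast Nat.totient_pos.mpr (by omega)
  have hφ0 : (0 : ℝ) < Nat.totient q := by linarith
  have hy2r : (2 : ℝ) ≤ y := by exact_mod_cast hy2
  have hyr : (y : ℝ) ≤ N := by exact_mod_cast hy
  have h1 := err_le_errMax N q a hq y hy2r hyr
  have h2 := err_le_errMax N 1 0 le_rfl y hy2r hyr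
  unfold err at h1 h2
  rw [piR_nat] at h1 h2
  rw [pi2_one, Nat.totient_one, Nat.cast_one, div_one] at h2
  unfold dev
  set I := ∫ t in (2 : ℝ)..(y : ℝ), 1 / Real.log t
  have e : pi2 y q a - pi1 y / (Nat.totient q : ℝ) = (pi2 y q a - I / (Nat.totient q : ℝ)) -
      (pi1 y - I) / (Nat.totient q : ℝ) := by ring
  rw [e]
  refine (abs_sub _ _).trans ?_
  rw [abs_div, abs_of_pos hφ0]
  gcongr

theorem scale (U : ℕ) : ∃ (B x0 : ℕ), ∀ N : ℕ, x0 ≤ N → ∃ E : ℕ → Finset ℕ,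
    (∀ q, 1 ≤ q → ((E q).card : ℝ) ≤ Real.log N ^ B * (q : ℝ) ^ 2 / N) ∧
    ∀ y : ℕ → ℕ, (∀ q, y q ≤ N) → ∀ a : ℕ → ℕ, ∀ Q : Finset ℕ, Q ⊆ Icc 1 N →
      (∀ q ∈ Q, a q < q ∧ (a q).Coprime q) →
      ∑ q ∈ Q, dev (y q) q (a q) ≤ N / Real.log N ^ U +
        ∑ q ∈ Q.filter (fun q => a q ∈ E q), 2 * N / (Nat.totient q : ℝ) := by
  obtain ⟨c, hc⟩ := sum_log 1 le_rfl
  obtain ⟨B, x1, h1⟩ := exceptional_gen errMax errMax_nonneg famMax (U + c + 1)
  obtain ⟨x2, hx2⟩ : ∃ x2 : ℕ, ∀ N : ℕ, x2 ≤ N → Real.log N ^ B < N := by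
    have h2 := (Real.isLittleO_pow_log_id_atTop (n := B)).bound (c := 1 / 2) (by norm_num)
    obtain ⟨Y, hY⟩ := Filter.eventually_atTop.1 h2
    refine ⟨max 1 ⌈Y⌉₊, fun N hN => ?_⟩
    have hN1 : 1 ≤ N := (le_max_left _ _).trans hN
    have h3 := hY N ((Nat.le_ceil Y).trans (by exact_mod_cast (le_max_right _ _).trans hN))
    have h4 : (1 : ℝ) ≤ N := by exact_mod_cast hN1
    have h5 : 0 ≤ Real.log N := Real.log_nonneg h4
    rw [Real.norm_of_nonneg (by positivity), id, Real.norm_of_nonneg (by positivity)] at h3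
    linarith
  refine ⟨B, max (max x1 x2) 8, fun N hN => ?_⟩
  have hx1 : x1 ≤ N := ((le_max_left _ _).trans (le_max_left _ _)).trans hN
  have hx2' : x2 ≤ N := ((le_max_right _ _).trans (le_max_left _ _)).trans hN
  have hN8 : 8 ≤ N := (le_max_right _ _).trans hN
  have hN8r : (8 : ℝ) ≤ N := by exact_mod_cast hN8
  have hN0 : (0 : ℝ) < N := by linarith
  have hlog : 2 ≤ Real.log N := by
    have h1 : Real.log 8 ≤ Real.log N := Real.log_le_log (by norm_num) hN8r
    have h2 : Real.log 8 = 3 * Real.log 2 := by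
      rw [show (8 : ℝ) = 2 ^ 3 by norm_num, Real.log_pow]; norm_num
    have := Real.log_two_gt_d9
    linarith
  have hlog0 : 0 < Real.log N := by linarith
  obtain ⟨E, M, hE, hM, hM0, hsum⟩ := h1 N hx1
  refine ⟨E, hE, fun y hy a Q hQ ha => ?_⟩
  have hM1 : errMax N 1 0 ≤ M 1 := by
    apply hM 1 0 le_rfl (by norm_num) (by norm_num)
    intro h
    have h2 : (1 : ℝ) ≤ ((E 1).card : ℝ) := by exact_mod_cast card_pos.2 ⟨0, h⟩
    have h3 := hE 1 le_rfl
    have h4 : Real.log N ^ B * ((1 : ℕ) : ℝ) ^ 2 / N < 1 := by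
      rw [Nat.cast_one, one_pow, mul_one, div_lt_one hN0]
      exact hx2 N hx2'
    linarith
  have hM1' : M 1 ≤ N / Real.log N ^ (U + c + 1) := by
    refine le_trans ?_ hsum
    exact single_le_sum (f := M) (fun q _ => hM0 q) (mem_Icc.2 ⟨le_rfl, by omega⟩)
  have hNU : 0 ≤ (N : ℝ) / Real.log N ^ (U + c + 1) := by positivity
  have hterm : ∀ q ∈ Q, dev (y q) q (a q) ≤ (M q + (N / Real.log N ^ (U + c + 1)) * (1 / (Nat.totient q : ℝ))) +
      (if a q ∈ E q then 2 * N / (Nat.totient q : ℝ) else 0) := by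
    intro q hq
    have hq1 := mem_Icc.1 (hQ hq)
    have hφ0 : (0 : ℝ) < Nat.totient q := by exact_mod_cast Nat.totient_pos.mpr (by omega)
    have hpos : 0 ≤ M q + (N / Real.log N ^ (U + c + 1)) * (1 / (Nat.totient q : ℝ)) :=
      add_nonneg (hM0 q) (by positivity)
    split_ifs with h
    · linarith [dev_triv N (y q) q (a q) (hy q) hq1.1 hq1.2]
    · rw [add_zero]
      rcases Nat.lt_or_ge (y q) 2 with h2 | h2
      · rw [dev_small _ _ _ h2]
        exact hpos
      · refine (dev_le N (y q) q (a q) hq1.1 h2 (hy q)).trans ?_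
        apply add_le_add
        · exact hM q (a q) hq1.1 (ha q hq).1 (ha q hq).2 h
        · rw [mul_one_div]
          have : errMax N 1 0 ≤ N / Real.log N ^ (U + c + 1) := hM1.trans hM1'
          gcongr
  refine (sum_le_sum hterm).trans ?_
  rw [sum_add_distrib, sum_add_distrib, ← sum_filter, ← mul_sum]
  apply add_le_add _ le_rfl
  have h5 : ∑ q ∈ Q, M q ≤ N / Real.log N ^ (U + c + 1) :=
    (sum_le_sum_of_subset_of_nonneg hQ (fun q _ _ => hM0 q)).trans hsum
  have h6 : ∑ q ∈ Q, 1 / (Nat.totient q : ℝ) ≤ Real.log N ^ c := by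
    refine le_trans ?_ (hc N hN8)
    simp only [one_pow]
    exact sum_le_sum_of_subset_of_nonneg hQ (fun q _ _ => by positivity)
  have h7 : (N : ℝ) / Real.log N ^ (U + c + 1) * ∑ q ∈ Q, 1 / (Nat.totient q : ℝ) ≤
      N / Real.log N ^ (U + 1) := by
    calc (N : ℝ) / Real.log N ^ (U + c + 1) * ∑ q ∈ Q, 1 / (Nat.totient q : ℝ) ≤
        N / Real.log N ^ (U + c + 1) * Real.log N ^ c := mul_le_mul_of_nonneg_left h6 hNU
      _ = N / Real.log N ^ (U + 1) := by
          rw [show U + c + 1 = (U + 1) + c by ring, pow_add]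
          field_simp
  have h8 : (N : ℝ) / Real.log N ^ (U + c + 1) ≤ N / Real.log N ^ (U + 1) := by
    apply div_le_div_of_nonneg_left hN0.le (by positivity)
    exact pow_le_pow_right₀ (by linarith) (by omega)
  have h9 : 2 * (N / Real.log N ^ (U + 1)) ≤ N / Real.log N ^ U := by
    rw [pow_succ, ← div_div, ← mul_div_assoc, div_le_iff₀ hlog0, mul_comm]
    apply mul_le_mul_of_nonneg_left hlog (by positivity)
  linarith

end Pool.Agent.Y856
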