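import Pool.Agent.Y856.Metric.Base

/-! From the scales `2 ^ j` to all `x`. -/

set_option autoImplicit false

namespace Pool.Agent.Y856

open Finset

/-- the number of primes `p ≤ y` with `p ≡ a (mod q)`, for integers `a` -/
noncomputable def piZ (y q : ℕ) (a : ℤ) : ℕ :=
  ((Icc 1 y).filter (fun p : ℕ => p.Prime ∧ (p : ℤ) ≡ a [ZMOD q])).card

/-- the number of primes `p ≤ y` -/
noncomputable def piN (y : ℕ) : ℕ := ((Icc 1 y).filter (fun p : ℕ => p.Prime)).card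

/-- the bound of Elliott and Halberstam at level `θ` over the classes in `T(q)`, uniformly in the lengths `y(q) ≤ x` -/
def EHP (θ : ℝ) (T : ℕ → Finset ℤ) : Prop :=
  ∀ A : ℝ, 0 < A → ∃ C : ℝ, ∀ x : ℕ, 2 < x → ∀ y : ℕ → ℕ, (∀ q, y q ≤ x) → ∀ b : ℕ → ℤ,
    ∑ q ∈ (Icc 1 ⌊(x : ℝ) ^ θ⌋₊).filter (fun q => b q ∈ T q ∧ Int.gcd (b q) q = 1),
      |(piZ (y q) q (b q) : ℝ) - (piN (y q) : ℝ) / (Nat.totient q : ℝ)| ≤
      C * (x / Real.log x ^ A)

/-- the conclusion of `scale` -/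
def SP (U N : ℕ) (E : ℕ → Finset ℕ) : Prop :=
  ∀ y : ℕ → ℕ, (∀ q, y q ≤ N) → ∀ a : ℕ → ℕ, ∀ Q : Finset ℕ, Q ⊆ Icc 1 N →
      (∀ q ∈ Q, a q < q ∧ (a q).Coprime q) →
      ∑ q ∈ Q, dev (y q) q (a q) ≤ N / Real.log N ^ U +
        ∑ q ∈ Q.filter (fun q => a q ∈ E q), 2 * N / (Nat.totient q : ℝ)

/-- the weight of the moduli for which `b(q) ∈ T(q)` is exceptional -/
noncomputable def HS (E : ℕ → Finset ℕ) (N : ℕ) (θ : ℝ) (T : ℕ → Finset ℤ) (b : ℕ → ℤ) : ℝ :=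
  ∑ q ∈ (Icc 1 ⌊(N : ℝ) ^ θ⌋₊).filter (fun q => b q ∈ T q ∧ (b q % q).toNat ∈ E q),
    2 * N / (Nat.totient q : ℝ)

lemma scale_choice (U : ℕ) : ∃ (B x0 : ℕ) (E : ℕ → ℕ → Finset ℕ), ∀ N : ℕ, x0 ≤ N →
    (∀ q, 1 ≤ q → ((E N q).card : ℝ) ≤ Real.log N ^ B * (q : ℝ) ^ 2 / N) ∧ SP U N (E N) := by
  obtain ⟨B, x0, h⟩ := scale U
  refine ⟨B, x0, fun N => if hN : x0 ≤ N then (h N hN).choose else fun _ => ∅, fun N hN => ?_⟩
  simp only [dif_pos hN]
  exact (h N hN).choose_spec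

lemma res_facts (q : ℕ) (hq : 1 ≤ q) (a : ℤ) : (a % q).toNat < q ∧ (((a % q).toNat : ℕ) : ℤ) = a % q := by
  have hq0 : (0 : ℤ) < q := by exact_mod_cast hq
  have h1 : (((a % q).toNat : ℕ) : ℤ) = a % q := Int.toNat_of_nonneg (Int.emod_nonneg _ hq0.ne')
  refine ⟨?_, h1⟩
  have := Int.emod_lt_of_pos a hq0
  omega

lemma res_coprime (q : ℕ) (hq : 1 ≤ q) (a : ℤ) (h : Int.gcd a q = 1) : (a % q).toNat.Coprime q := by
  have h1 := (res_facts q hq a).2
  rw [Nat.coprime_iff_gcd_eq_one, ← Int.gcd_natCast_natCast, h1, Int.gcd_emod]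
  exact h

lemma piZ_eq (y q : ℕ) (hq : 1 ≤ q) (a : ℤ) : (piZ y q a : ℝ) = pi2 y q (a % q).toNat := by
  unfold piZ pi2
  congr 2
  apply filter_congr
  intro p _
  rw [← Int.natCast_modEq_iff, (res_facts q hq a).2]
  constructor
  · rintro ⟨h1, h2⟩
    exact ⟨h1, h2.trans (Int.mod_modEq _ _).symm⟩
  · rintro ⟨h1, h2⟩
    exact ⟨h1, h2.trans (Int.mod_modEq _ _)⟩

lemma dev_eq (y q : ℕ) (hq : 1 ≤ q) (a : ℤ) :
    |(piZ y q a : ℝ) - (piN y : ℝ) / (Nat.totient q : ℝ)| = dev y q (a % q).toNat := by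
  unfold dev
  rw [piZ_eq y q hq]
  rfl

lemma EH_of (θ : ℝ) (T : ℕ → Finset ℤ) (hθ : θ < 1)
    (hyp : ∀ U : ℕ, ∃ (x0 : ℕ) (E : ℕ → ℕ → Finset ℕ), (∀ N, x0 ≤ N → SP U N (E N)) ∧
      ∃ j0 : ℕ, ∀ j, j0 ≤ j → ∀ b : ℕ → ℤ,
        HS (E (2 ^ j)) (2 ^ j) θ T b ≤ ((2 ^ j : ℕ) : ℝ) / Real.log ((2 ^ j : ℕ) : ℝ) ^ U) :
    EHP θ T := by
  intro A hA
  obtain ⟨U, hU⟩ : ∃ U : ℕ, U = ⌈A⌉₊ := ⟨_, rfl⟩
  have hAU : A ≤ U := by rw [hU]; exact Nat.le_ceil A
  obtain ⟨x0, E, hSP, j0, hj⟩ := hyp U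
  obtain ⟨X, hX⟩ : ∃ X : ℕ, X = max (max x0 (2 ^ (j0 + 1))) 3 := ⟨_, rfl⟩
  have hlogX : 0 ≤ Real.log X := Real.log_natCast_nonneg X
  refine ⟨4 + 2 * X * Real.log X ^ A, fun x hx y hy b => ?_⟩
  have hx3 : (3 : ℝ) ≤ x := by exact_mod_cast hx
  have hx0 : (0 : ℝ) < x := by linarith
  have hlog : 1 ≤ Real.log x := by
    rw [Real.le_log_iff_exp_le (by linarith)]
    have := Real.exp_one_lt_d9
    linarith
  have hlogA : 0 < Real.log x ^ A := Real.rpow_pos_of_pos (by linarith) A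
  have hXA : 0 ≤ 2 * (X : ℝ) * Real.log X ^ A := by
    have := Real.rpow_nonneg hlogX A
    positivity
  have hpos : 0 ≤ (x : ℝ) / Real.log x ^ A := by positivity
  have hxθ : ⌊(x : ℝ) ^ θ⌋₊ ≤ x := by
    have h1 : (x : ℝ) ^ θ ≤ x := by
      calc (x : ℝ) ^ θ ≤ (x : ℝ) ^ (1 : ℝ) := Real.rpow_le_rpow_of_exponent_le (by linarith) hθ.le
        _ = x := Real.rpow_one _
    have h2 := Nat.floor_le_floor h1
    rwa [Nat.floor_natCast] at h2
  have hrw : ∀ q ∈ (Icc 1 ⌊(x : ℝ) ^ θ⌋₊).filter (fun q => b q ∈ T q ∧ Int.gcd (b q) q = 1),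
      |(piZ (y q) q (b q) : ℝ) - (piN (y q) : ℝ) / (Nat.totient q : ℝ)| =
        dev (y q) q (b q % q).toNat := by
    intro q hq
    rw [mem_filter, mem_Icc] at hq
    exact dev_eq _ _ hq.1.1 _
  rw [sum_congr rfl hrw]
  rcases Nat.lt_or_ge x X with hlt | hge
  · have h1 : ∑ q ∈ (Icc 1 ⌊(x : ℝ) ^ θ⌋₊).filter (fun q => b q ∈ T q ∧ Int.gcd (b q) q = 1),
        dev (y q) q (b q % q).toNat ≤ ∑ q ∈ Icc 1 x, 2 * (x : ℝ) := by
      refine le_trans (sum_le_sum (g := fun _ => 2 * (x : ℝ)) fun q hq => ?_) ?_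
      · rw [mem_filter, mem_Icc] at hq
        have hφ : (1 : ℝ) ≤ Nat.totient q := by exact_mod_cast Nat.totient_pos.mpr (by omega)
        exact (dev_triv x (y q) q _ (hy q) hq.1.1 (by omega)).trans
          (div_le_self (by positivity) hφ)
      · apply sum_le_sum_of_subset_of_nonneg
        · intro q hq
          rw [mem_filter, mem_Icc] at hq
          rw [mem_Icc]
          omega
        · intros
          positivity
    refine h1.trans ?_
    rw [sum_const, Nat.card_Icc, nsmul_eq_mul, Nat.add_sub_cancel]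
    have hxX : (x : ℝ) ≤ X := by exact_mod_cast hlt.le
    have h2 : Real.log x ^ A ≤ Real.log X ^ A :=
      Real.rpow_le_rpow (by linarith) (Real.log_le_log hx0 hxX) hA.le
    calc (x : ℝ) * (2 * x) = (2 * x * Real.log x ^ A) * (x / Real.log x ^ A) := by
          field_simp
      _ ≤ (2 * X * Real.log X ^ A) * (x / Real.log x ^ A) := by gcongr
      _ ≤ _ := by
          apply mul_le_mul_of_nonneg_right _ hpos
          linarith
  · -- large x
    obtain ⟨j, hjdef⟩ : ∃ j : ℕ, j = Nat.clog 2 x := ⟨_, rfl⟩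
    have hxN : x ≤ 2 ^ j := by rw [hjdef]; exact Nat.le_pow_clog (by norm_num) x
    have hNx : 2 ^ j < 2 * x := by
      have h1 := Nat.pow_pred_clog_lt_self (b := 2) (by norm_num) (x := x) (by omega)
      have h2 : 1 ≤ j := by
        rw [hjdef]
        exact Nat.clog_pos (by norm_num) (by omega)
      have h3 : Nat.clog 2 x - 1 = j - 1 := by rw [hjdef]
      rw [Nat.pred_eq_sub_one, h3] at h1
      have h4 : 2 ^ j = 2 * 2 ^ (j - 1) := by
        rw [← pow_succ']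
        congr 1
        omega
      omega
    have hj0 : j0 ≤ j := by
      by_contra hcon
      push Not at hcon
      have h1 : 2 ^ (j0 + 1) ≤ x := by
        refine le_trans ?_ hge
        rw [hX]
        exact (le_max_right _ _).trans (le_max_left _ _)
      have h2 : 2 ^ j < 2 ^ (j0 + 1) := Nat.pow_lt_pow_right (by norm_num) (by omega)
      omega
    have hN0 : x0 ≤ 2 ^ j := by
      refine le_trans ?_ (hge.trans hxN)
      rw [hX]
      exact (le_max_left _ _).trans (le_max_left _ _)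
    obtain ⟨N, hN⟩ : ∃ N : ℕ, N = 2 ^ j := ⟨_, rfl⟩
    have h1 := hSP (2 ^ j) hN0 y (fun q => (hy q).trans hxN) (fun q => (b q % q).toNat)
      ((Icc 1 ⌊(x : ℝ) ^ θ⌋₊).filter (fun q => b q ∈ T q ∧ Int.gcd (b q) q = 1)) (by
        intro q hq
        rw [mem_filter, mem_Icc] at hq
        rw [mem_Icc]
        omega) (by
        intro q hq
        rw [mem_filter, mem_Icc] at hq
        exact ⟨(res_facts q hq.1.1 _).1, res_coprime q hq.1.1 _ hq.2.2⟩)
    have h2 := hj j hj0 b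
    rw [← hN] at h1 h2 hxN hNx
    have hxNr : (x : ℝ) ≤ N := by exact_mod_cast hxN
    have hNxr : (N : ℝ) ≤ 2 * x := by exact_mod_cast hNx.le
    have h3 : ∑ q ∈ ((Icc 1 ⌊(x : ℝ) ^ θ⌋₊).filter (fun q => b q ∈ T q ∧ Int.gcd (b q) q = 1)).filter
        (fun q => (b q % q).toNat ∈ E N q), 2 * N / (Nat.totient q : ℝ) ≤
        HS (E N) N θ T b := by
      unfold HS
      rcases lt_or_ge θ 0 with hneg | hnn
      · -- empty range
        have : ⌊(x : ℝ) ^ θ⌋₊ = 0 := by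
          rw [Nat.floor_eq_zero]
          exact Real.rpow_lt_one_of_one_lt_of_neg (by linarith) hneg
        rw [this]
        simp only [show Icc 1 0 = (∅ : Finset ℕ) from rfl, filter_empty, sum_empty]
        positivity
      apply sum_le_sum_of_subset_of_nonneg
      · intro q hq
        rw [mem_filter, mem_filter, mem_Icc] at hq
        rw [mem_filter, mem_Icc]
        refine ⟨⟨hq.1.1.1, hq.1.1.2.trans ?_⟩, hq.1.2.1, hq.2⟩
        apply Nat.floor_le_floor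
        exact Real.rpow_le_rpow (by linarith) hxNr hnn
      · intros
        positivity
    have h4 : (N : ℝ) / Real.log N ^ U ≤ 2 * (x / Real.log x ^ A) := by
      have h5 : Real.log x ≤ Real.log N := Real.log_le_log hx0 hxNr
      have h6 : Real.log x ^ A ≤ Real.log N ^ U := by
        rw [← Real.rpow_natCast]
        calc Real.log x ^ A ≤ Real.log x ^ (U : ℝ) := Real.rpow_le_rpow_of_exponent_le hlog hAU
          _ ≤ Real.log N ^ (U : ℝ) := Real.rpow_le_rpow (by linarith) h5 (by positivity)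
      calc (N : ℝ) / Real.log N ^ U ≤ (2 * x) / Real.log x ^ A := by gcongr
        _ = _ := by ring
    have h7 := h1.trans (add_le_add le_rfl h3)
    calc ∑ q ∈ (Icc 1 ⌊(x : ℝ) ^ θ⌋₊).filter (fun q => b q ∈ T q ∧ Int.gcd (b q) q = 1),
          dev (y q) q (b q % q).toNat ≤ N / Real.log N ^ U + N / Real.log N ^ U :=
          h7.trans (add_le_add le_rfl h2)
      _ ≤ 4 * (x / Real.log x ^ A) := by linarith
      _ ≤ _ := by
          apply mul_le_mul_of_nonneg_right _ hpos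
          linarith

end Pool.Agent.Y856
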