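import Pool.Agent.Y856.Metric.Cells
import Pool.Agent.Y856.Metric.Of

/-! The exceptional cells at the scale `N = 2 ^ j`. -/

set_option autoImplicit false

namespace Pool.Agent.Y856

open Finset
open Pool.Agent.H300R2.WEH

/-- the moduli of the block `i` -/
def blk (M i : ℕ) : Finset ℕ := (Icc 1 M).filter (fun q => Nat.log 2 q = i)

lemma mem_blk {M i q : ℕ} : q ∈ blk M i ↔ (1 ≤ q ∧ q ≤ M) ∧ Nat.log 2 q = i := by
  unfold blk
  rw [mem_filter, mem_Icc]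

lemma blk_le {M i q : ℕ} (h : q ∈ blk M i) : 2 ^ i ≤ q ∧ q ≤ 2 ^ (i + 1) := by
  rw [mem_blk] at h
  constructor
  · rw [← h.2]
    exact Nat.pow_log_le_self 2 (by omega)
  · rw [← h.2]
    exact (Nat.lt_pow_succ_log_self (b := 2) (by norm_num) q).le

lemma block_sum (N M i B c0 : ℕ) (E : ℕ → Finset ℕ) (F : ℕ → ℤ → Finset ℤ) (κ β : ℝ) (hκ : 0 ≤ κ) (hβ : 0 ≤ β) (m : ℤ)
    (hF : ∀ q : ℕ, 1 ≤ q → ∀ m l : ℤ, (((Ico (m * q) ((m + 1) * q)).filter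
      (fun t => ∃ b ∈ F q t, b ≡ l [ZMOD q])).card : ℝ) ≤ κ * (q : ℝ) ^ β)
    (hN : 1 ≤ N) (hMN : M ≤ N)
    (hc0 : ∑ d ∈ Icc 1 N, 1 / (Nat.totient d : ℝ) ≤ Real.log N ^ c0)
    (hE : ∀ q, 1 ≤ q → ((E q).card : ℝ) ≤ Real.log N ^ B * (q : ℝ) ^ 2 / N) :
    ∑ p ∈ (blk M i).sigma (TT E F m), 2 * N / (Nat.totient p.1 : ℝ) ≤
      2 * κ * Real.log N ^ (B + c0) * ((2 : ℝ) ^ (i + 1)) ^ (2 + β) := by
  rw [sum_sigma]
  have hN0 : (0 : ℝ) < N := by exact_mod_cast hN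
  have hlog : 0 ≤ Real.log N := Real.log_natCast_nonneg N
  have h1 : ∀ q ∈ blk M i, ∑ _t ∈ TT E F m q, 2 * N / (Nat.totient q : ℝ) ≤
      2 * κ * Real.log N ^ B * ((2 : ℝ) ^ (i + 1)) ^ (2 + β) * (1 / (Nat.totient q : ℝ)) := by
    intro q hq
    have hb := blk_le hq
    have hq1 : 1 ≤ q := (mem_blk.1 hq).1.1
    have hq1r : (1 : ℝ) ≤ q := by exact_mod_cast hq1
    have hq0 : (0 : ℝ) < q := by linarith
    have hφ0 : (0 : ℝ) < Nat.totient q := by exact_mod_cast Nat.totient_pos.mpr (by omega)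
    rw [sum_const, nsmul_eq_mul]
    have h2 := card_TT E F m q hq1 _ (hF q hq1 m)
    have h3 := hE q hq1
    have h5 : ((TT E F m q).card : ℝ) ≤ Real.log N ^ B * (q : ℝ) ^ 2 / N * (κ * (q : ℝ) ^ β) := by
      refine h2.trans ?_
      apply mul_le_mul_of_nonneg_right h3 (by positivity)
    have h6 : (q : ℝ) ^ 2 * (q : ℝ) ^ β = (q : ℝ) ^ (2 + β) := by
      rw [Real.rpow_add hq0]
      congr 1
      norm_num
    have h7 : (q : ℝ) ^ (2 + β) ≤ ((2 : ℝ) ^ (i + 1)) ^ (2 + β) := by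
      apply Real.rpow_le_rpow hq0.le _ (by linarith)
      exact_mod_cast hb.2
    calc ((TT E F m q).card : ℝ) * (2 * N / (Nat.totient q : ℝ)) ≤
        (Real.log N ^ B * (q : ℝ) ^ 2 / N * (κ * (q : ℝ) ^ β)) * (2 * N / (Nat.totient q : ℝ)) := by
          gcongr
      _ = 2 * κ * Real.log N ^ B * ((q : ℝ) ^ 2 * (q : ℝ) ^ β) * (1 / (Nat.totient q : ℝ)) := by
          field_simp
      _ ≤ _ := by
          rw [h6]
          gcongr
  refine (sum_le_sum h1).trans ?_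
  rw [← mul_sum]
  have h8 : ∑ q ∈ blk M i, 1 / (Nat.totient q : ℝ) ≤ Real.log N ^ c0 := by
    refine le_trans ?_ hc0
    apply sum_le_sum_of_subset_of_nonneg
    · intro q hq
      rw [mem_blk] at hq
      rw [mem_Icc]
      omega
    · intros
      positivity
  calc 2 * κ * Real.log N ^ B * ((2 : ℝ) ^ (i + 1)) ^ (2 + β) * ∑ q ∈ blk M i, 1 / (Nat.totient q : ℝ) ≤
      2 * κ * Real.log N ^ B * ((2 : ℝ) ^ (i + 1)) ^ (2 + β) * Real.log N ^ c0 := by gcongr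
    _ = _ := by rw [pow_add]; ring

/-- cells for one block -/
lemma block_cells (N M i B c0 : ℕ) (E : ℕ → Finset ℕ) (F : ℕ → ℤ → Finset ℤ) (κ β : ℝ) (hκ : 0 ≤ κ) (hβ : 0 ≤ β) (m : ℤ)
    (hF : ∀ q : ℕ, 1 ≤ q → ∀ m l : ℤ, (((Ico (m * q) ((m + 1) * q)).filter
      (fun t => ∃ b ∈ F q t, b ≡ l [ZMOD q])).card : ℝ) ≤ κ * (q : ℝ) ^ β)
    (hN : 1 ≤ N) (hMN : M ≤ N) (lam : ℝ) (hlam : 0 < lam)
    (hc0 : ∑ d ∈ Icc 1 N, 1 / (Nat.totient d : ℝ) ≤ Real.log N ^ c0)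
    (hE : ∀ q, 1 ≤ q → ((E q).card : ℝ) ≤ Real.log N ^ B * (q : ℝ) ^ 2 / N) :
    ∃ K : Finset ℤ, (K.card : ℝ) ≤ 2 / lam * (2 * κ * Real.log N ^ (B + c0) * ((2 : ℝ) ^ (i + 1)) ^ (2 + β)) ∧
      (blk M i = ∅ → K = ∅) ∧
      ∀ α : ℝ, m ≤ α → α < m + 1 → ∀ b : ℕ → ℤ,
        lam < ∑ q ∈ (blk M i).filter (fun q => b q ∈ F q ⌊α * q⌋ ∧ (b q % q).toNat ∈ E q),
          2 * N / (Nat.totient q : ℝ) → ⌊α * 2 ^ i⌋ ∈ K := by
  obtain ⟨K, hK1, hK2⟩ := cells_count ((blk M i).sigma (TT E F m))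
    (fun p => 2 * N / (Nat.totient p.1 : ℝ)) (fun p => by positivity) (fun p => cf i p.1 p.2) lam hlam
  refine ⟨K, ?_, ?_, ?_⟩
  · refine hK1.trans ?_
    apply mul_le_mul_of_nonneg_left _ (by positivity)
    exact block_sum N M i B c0 E F κ β hκ hβ m hF hN hMN hc0 hE
  · intro hempty
    rw [hempty, sum_sigma, sum_empty, mul_zero] at hK1
    have h1 : (K.card : ℝ) = 0 := le_antisymm hK1 (Nat.cast_nonneg _)
    have h2 : K.card = 0 := by exact_mod_cast h1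
    exact card_eq_zero.1 h2
  · intro α hα1 hα2 b hsum
    apply hK2
    refine hsum.trans_le ?_
    have himg : ∑ q ∈ (blk M i).filter (fun q => b q ∈ F q ⌊α * q⌋ ∧ (b q % q).toNat ∈ E q),
        2 * N / (Nat.totient q : ℝ) =
        ∑ p ∈ ((blk M i).filter (fun q => b q ∈ F q ⌊α * q⌋ ∧ (b q % q).toNat ∈ E q)).image
          (fun q => (⟨q, ⌊α * q⌋⟩ : Σ _ : ℕ, ℤ)), 2 * N / (Nat.totient p.1 : ℝ) := by
      rw [sum_image]
      intro q _ q' _ h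
      simp only [Sigma.mk.injEq] at h
      exact h.1
    rw [himg]
    apply sum_le_sum_of_subset_of_nonneg
    · intro p hp
      rw [mem_image] at hp
      obtain ⟨q, hq, rfl⟩ := hp
      rw [mem_filter] at hq
      have hq1 : 1 ≤ q := (mem_blk.1 hq.1).1.1
      have hqr : (0 : ℝ) < q := by exact_mod_cast hq1
      rw [mem_filter, mem_sigma]
      refine ⟨⟨hq.1, ?_⟩, ?_⟩
      · apply mem_TT E F m q _ (b q) _ _ hq.2.1 hq.2.2
        · rw [Int.le_floor]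
          push_cast
          exact mul_le_mul_of_nonneg_right hα1 hqr.le
        · rw [Int.floor_lt]
          push_cast
          exact mul_lt_mul_of_pos_right hα2 hqr
      · exact cf_spec i q (blk_le hq.1).1 α
    · intros
      positivity

end Pool.Agent.Y856
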