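import Pool.Agent.Y856.Metric.Base

/-! Hits and cells. -/

set_option autoImplicit false

namespace Pool.Agent.Y856

open Finset

/-- the integers `t ∈ [m q, (m + 1) q)` for which some `b ∈ F(q, t)` lies in an exceptional class -/
noncomputable def TT (E : ℕ → Finset ℕ) (F : ℕ → ℤ → Finset ℤ) (m : ℤ) (q : ℕ) : Finset ℤ :=
  (Ico (m * q) ((m + 1) * q)).filter (fun t => ∃ b ∈ F q t, (b % q).toNat ∈ E q)

lemma card_TT (E : ℕ → Finset ℕ) (F : ℕ → ℤ → Finset ℤ) (m : ℤ) (q : ℕ) (hq : 1 ≤ q) (κ : ℝ)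
    (hF : ∀ l : ℤ, (((Ico (m * q) ((m + 1) * q)).filter (fun t => ∃ b ∈ F q t, b ≡ l [ZMOD q])).card : ℝ) ≤ κ) :
    ((TT E F m q).card : ℝ) ≤ (E q).card * κ := by
  have hq0 : (0 : ℤ) < q := by exact_mod_cast hq
  have hsub : TT E F m q ⊆ (E q).biUnion
      (fun e => (Ico (m * q) ((m + 1) * q)).filter (fun t => ∃ b ∈ F q t, b ≡ (e : ℤ) [ZMOD q])) := by
    intro t ht
    unfold TT at ht
    rw [mem_filter] at ht
    obtain ⟨h1, b, hb, he⟩ := ht
    rw [mem_biUnion]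
    refine ⟨(b % q).toNat, he, ?_⟩
    rw [mem_filter]
    refine ⟨h1, b, hb, ?_⟩
    have h2 : (((b % q).toNat : ℕ) : ℤ) = b % q := Int.toNat_of_nonneg (Int.emod_nonneg _ hq0.ne')
    rw [h2]
    exact (Int.mod_modEq _ _).symm
  have h3 := (card_le_card hsub).trans card_biUnion_le
  have h4 : ((TT E F m q).card : ℝ) ≤ ((∑ e ∈ E q,
      ((Ico (m * q) ((m + 1) * q)).filter (fun t => ∃ b ∈ F q t, b ≡ (e : ℤ) [ZMOD q])).card : ℕ) : ℝ) := by
    exact_mod_cast h3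
  refine h4.trans ?_
  rw [Nat.cast_sum]
  calc ∑ e ∈ E q, (((Ico (m * q) ((m + 1) * q)).filter
        (fun t => ∃ b ∈ F q t, b ≡ (e : ℤ) [ZMOD q])).card : ℝ) ≤ ∑ _e ∈ E q, κ := sum_le_sum fun e _ => hF e
    _ = _ := by rw [sum_const, nsmul_eq_mul]

lemma mem_TT (E : ℕ → Finset ℕ) (F : ℕ → ℤ → Finset ℤ) (m : ℤ) (q : ℕ) (t b : ℤ)
    (ht : m * q ≤ t) (ht2 : t < (m + 1) * q) (hb : b ∈ F q t)
    (he : (b % q).toNat ∈ E q) : t ∈ TT E F m q := by
  unfold TT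
  rw [mem_filter, mem_Ico]
  exact ⟨⟨ht, ht2⟩, b, hb, he⟩

/-- the cell index of the point `t / q` -/
noncomputable def cf (i : ℕ) (q : ℕ) (t : ℤ) : ℤ := ⌊(2 : ℝ) ^ i * t / q⌋

lemma cf_spec (i q : ℕ) (hq : 2 ^ i ≤ q) (α : ℝ) :
    ⌊α * 2 ^ i⌋ = cf i q ⌊α * q⌋ ∨ ⌊α * 2 ^ i⌋ = cf i q ⌊α * q⌋ + 1 := by
  have h2i : (0 : ℝ) < 2 ^ i := by positivity
  have hqr : (2 : ℝ) ^ i ≤ q := by exact_mod_cast hq
  have hq0 : (0 : ℝ) < q := h2i.trans_le hqr
  have h1 := Int.floor_le (α * q)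
  have h2 := Int.lt_floor_add_one (α * q)
  unfold cf
  set t := ⌊α * q⌋
  have h3 : (2 : ℝ) ^ i * t / q ≤ α * 2 ^ i := by
    rw [div_le_iff₀ hq0]
    nlinarith
  have h4 : α * 2 ^ i < (2 : ℝ) ^ i * t / q + 1 := by
    have h5 : α * 2 ^ i < 2 ^ i * (t + 1) / q := by
      rw [lt_div_iff₀ hq0]
      nlinarith
    have h6 : (2 : ℝ) ^ i * (t + 1) / q = 2 ^ i * t / q + 2 ^ i / q := by ring
    have h7 : (2 : ℝ) ^ i / q ≤ 1 := by
      rw [div_le_one hq0]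
      exact hqr
    linarith
  have h8 := Int.floor_le_floor h3
  have h9 : ⌊α * 2 ^ i⌋ ≤ ⌊(2 : ℝ) ^ i * t / q⌋ + 1 := by
    rw [← Int.floor_add_one]
    exact Int.floor_le_floor h4.le
  omega

lemma cells_count {ι : Type} (P : Finset ι) (w : ι → ℝ) (hw : ∀ p, 0 ≤ w p) (f : ι → ℤ) (lam : ℝ)
    (hlam : 0 < lam) : ∃ K : Finset ℤ, (K.card : ℝ) ≤ 2 / lam * ∑ p ∈ P, w p ∧
      ∀ k : ℤ, lam < ∑ p ∈ P.filter (fun p => k = f p ∨ k = f p + 1), w p → k ∈ K := by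
  classical
  refine ⟨(P.image f ∪ P.image (fun p => f p + 1)).filter
    (fun k => lam < ∑ p ∈ P.filter (fun p => k = f p ∨ k = f p + 1), w p), ?_, ?_⟩
  · set K := (P.image f ∪ P.image (fun p => f p + 1)).filter
      (fun k => lam < ∑ p ∈ P.filter (fun p => k = f p ∨ k = f p + 1), w p)
    have h1 : (K.card : ℝ) * lam ≤ ∑ k ∈ K, ∑ p ∈ P.filter (fun p => k = f p ∨ k = f p + 1), w p := by
      rw [← nsmul_eq_mul, ← sum_const]
      exact sum_le_sum fun k hk => (mem_filter.1 hk).2.le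
    have h2 : ∑ k ∈ K, ∑ p ∈ P.filter (fun p => k = f p ∨ k = f p + 1), w p ≤ 2 * ∑ p ∈ P, w p := by
      simp only [sum_filter]
      rw [sum_comm, mul_sum]
      apply sum_le_sum
      intro p _
      rw [← sum_filter, sum_const, nsmul_eq_mul]
      apply mul_le_mul_of_nonneg_right _ (hw p)
      have h3 : K.filter (fun k => k = f p ∨ k = f p + 1) ⊆ {f p, f p + 1} := by
        intro k hk
        rw [mem_filter] at hk
        simpa using hk.2
      have h4 := (card_le_card h3).trans card_le_two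
      exact_mod_cast h4
    have h5 := h1.trans h2
    rw [← mul_div_right_comm, le_div_iff₀ hlam]
    exact h5
  · intro k hk
    rw [mem_filter]
    refine ⟨?_, hk⟩
    by_contra hcon
    rw [mem_union, mem_image, mem_image] at hcon
    push Not at hcon
    have h1 : P.filter (fun p => k = f p ∨ k = f p + 1) = ∅ := by
      rw [filter_eq_empty_iff]
      intro p hp h
      rcases h with h | h
      · exact hcon.1 p hp h.symm
      · exact hcon.2 p hp h.symm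
    rw [h1, sum_empty] at hk
    linarith

end Pool.Agent.Y856
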