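import Mathlib

/-! The Hausdorff-Cantelli lemma. -/

set_option autoImplicit false

namespace Pool.Agent.Y856

open MeasureTheory MeasureTheory.Measure Filter Topology ENNReal
open scoped ENNReal

theorem hausdorff_cantelli {ι : Type} [Countable ι] (I : ι → Set ℝ) (s : ℝ) (hs : 0 < s)
    (hsum : ∑' n, Metric.ediam (I n) ^ s ≠ ∞) (F : Set ℝ)
    (hF : ∀ x ∈ F, {n | x ∈ I n}.Infinite) : μH[s] F ≠ ∞ := by
  classical
  have h := hausdorffMeasure_le_liminf_tsum (β := Finset ι) (ι := fun _ => ι) s F (l := atTop)
    (fun T => ⨆ n, ⨆ _ : n ∉ T, Metric.ediam (I n)) ?_ (fun T n => if n ∈ T then ∅ else I n) ?_ ?_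
  · refine ne_top_of_le_ne_top hsum (h.trans ?_)
    calc liminf (fun T : Finset ι => ∑' n, Metric.ediam (if n ∈ T then ∅ else I n) ^ s) atTop
        ≤ liminf (fun _ : Finset ι => ∑' n, Metric.ediam (I n) ^ s) atTop := by
          refine liminf_le_liminf (Eventually.of_forall fun T => ?_)
          apply ENNReal.tsum_le_tsum
          intro n
          apply ENNReal.rpow_le_rpow _ hs.le
          split_ifs
          · simp
          · exact le_rfl
      _ = _ := by rw [liminf_const]
  · rw [ENNReal.tendsto_nhds_zero]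
    intro ε hε
    rcases eq_or_ne ε ∞ with rfl | hε'
    · exact Eventually.of_forall fun T => le_top
    · have hne : ε ^ s ≠ 0 := by
        rw [Ne, ENNReal.rpow_eq_zero_iff]
        push Not
        exact ⟨fun h => absurd h hε.ne', fun _ => hs.le⟩
      have hfin := ENNReal.finite_const_le_of_tsum_ne_top hsum hne
      refine eventually_atTop.2 ⟨hfin.toFinset, fun T hT => ?_⟩
      apply iSup₂_le
      intro n hn
      by_contra hlt
      push Not at hlt
      apply hn
      apply hT
      rw [Set.Finite.mem_toFinset]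
      exact ENNReal.rpow_le_rpow hlt.le hs.le
  · refine Eventually.of_forall fun T n => ?_
    split_ifs with hn
    · simp
    · exact le_iSup₂ (f := fun n (_ : n ∉ T) => Metric.ediam (I n)) n hn
  · refine Eventually.of_forall fun T x hx => ?_
    obtain ⟨n, hn1, hn2⟩ := (hF x hx).exists_notMem_finset T
    rw [Set.mem_iUnion]
    refine ⟨n, ?_⟩
    rw [if_neg hn2]
    exact hn1

end Pool.Agent.Y856
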