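import Pool.Agent.Y856.Metric.Sc
import Pool.Agent.Y856.Metric.HC

/-! The Hausdorff dimension of the exceptional set. -/

set_option autoImplicit false

namespace Pool.Agent.Y856

open Finset
open MeasureTheory MeasureTheory.Measure Filter Topology
open scoped ENNReal NNReal

lemma G_summable (C δ : ℝ) (hδ : 0 < δ) (V : ℕ) :
    Summable (fun j : ℕ => C * ((j : ℝ) + 1) ^ V * (2 : ℝ) ^ (-(δ * j))) := by
  obtain ⟨r, hr⟩ : ∃ r : ℝ, r = (2 : ℝ) ^ (-δ) := ⟨_, rfl⟩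
  have hr0 : 0 < r := by rw [hr]; positivity
  have hr1 : r < 1 := by
    rw [hr]
    exact Real.rpow_lt_one_of_one_lt_of_neg (by norm_num) (by linarith)
  have h1 := summable_pow_mul_geometric_of_norm_lt_one V (r := r) (by
    rw [Real.norm_of_nonneg hr0.le]; exact hr1)
  have h2 := (summable_nat_add_iff 1).2 h1
  refine (h2.mul_left (C / r)).congr fun j => ?_
  have h3 : (2 : ℝ) ^ (-(δ * j)) = r ^ j := by
    rw [hr, ← Real.rpow_natCast, ← Real.rpow_mul (by norm_num)]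
    congr 1
    ring
  rw [h3, pow_succ]
  push_cast
  field_simp

lemma R_le (C : ℝ) (hC : 0 ≤ C) (V : ℕ) (θ β s g : ℝ) (hg : g = max (2 + β - s) 0)
    (j i n : ℕ) (hn : (n : ℝ) ≤ C * ((j : ℝ) + 1) ^ V * (2 : ℝ) ^ ((i : ℝ) * (2 + β) - j))
    (h0 : θ * j < i → n = 0) :
    (n : ℝ) * (1 / (2 : ℝ) ^ i) ^ s ≤ C * ((j : ℝ) + 1) ^ V * (2 : ℝ) ^ (-((1 - θ * g) * j)) := by
  have hj0 : (0 : ℝ) ≤ j := Nat.cast_nonneg j
  have hi0 : (0 : ℝ) ≤ i := Nat.cast_nonneg i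
  rcases lt_or_ge (θ * j) i with hlt | hge
  · rw [h0 hlt, Nat.cast_zero, zero_mul]
    positivity
  · have h1 : (1 / (2 : ℝ) ^ i) ^ s = (2 : ℝ) ^ (-((i : ℝ) * s)) := by
      rw [one_div, ← Real.rpow_natCast, ← Real.rpow_neg (by norm_num), ← Real.rpow_mul (by norm_num)]
      congr 1
      ring
    have hg0 : 0 ≤ g := by rw [hg]; exact le_max_right _ _
    have hg1 : 2 + β - s ≤ g := by rw [hg]; exact le_max_left _ _
    calc (n : ℝ) * (1 / (2 : ℝ) ^ i) ^ s ≤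
        (C * ((j : ℝ) + 1) ^ V * (2 : ℝ) ^ ((i : ℝ) * (2 + β) - j)) * (2 : ℝ) ^ (-((i : ℝ) * s)) := by
          rw [h1]
          gcongr
      _ = C * ((j : ℝ) + 1) ^ V * (2 : ℝ) ^ ((i : ℝ) * (2 + β - s) - j) := by
          rw [mul_assoc, ← Real.rpow_add (by norm_num)]
          congr 2
          ring
      _ ≤ C * ((j : ℝ) + 1) ^ V * (2 : ℝ) ^ (-((1 - θ * g) * j)) := by
          apply mul_le_mul_of_nonneg_left _ (by positivity)
          apply Real.rpow_le_rpow_of_exponent_le (by norm_num)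
          have h2 : (i : ℝ) * (2 + β - s) ≤ i * g := mul_le_mul_of_nonneg_left hg1 hi0
          have h3 : (i : ℝ) * g ≤ θ * j * g := mul_le_mul_of_nonneg_right hge hg0
          nlinarith

/-- the points in `[m, m + 1)` which are exceptional at infinitely many scales -/
def FF (θ : ℝ) (F : ℕ → ℤ → Finset ℤ) (U : ℕ) (E : ℕ → ℕ → Finset ℕ) (m : ℤ) : Set ℝ :=
  {α : ℝ | m ≤ α ∧ α < m + 1 ∧ ∃ᶠ j : ℕ in atTop, ∃ b : ℕ → ℤ,
    ((2 ^ j : ℕ) : ℝ) / Real.log ((2 ^ j : ℕ) : ℝ) ^ U <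
      HS (E (2 ^ j)) (2 ^ j) θ (fun q => F q ⌊α * q⌋) b}

lemma FF_measure (θ κ β : ℝ) (hθ0 : 0 < θ) (hθ1 : θ < 1) (hκ : 0 ≤ κ) (hβ : 0 ≤ β) (F : ℕ → ℤ → Finset ℤ)
    (hF : ∀ q : ℕ, 1 ≤ q → ∀ m l : ℤ, (((Finset.Ico (m * q) ((m + 1) * q)).filter
      (fun t => ∃ b ∈ F q t, b ≡ l [ZMOD q])).card : ℝ) ≤ κ * (q : ℝ) ^ β) (U B x0 c0 : ℕ)
    (E : ℕ → ℕ → Finset ℕ) (m : ℤ)
    (hc0 : ∀ N : ℕ, 8 ≤ N → ∑ d ∈ Finset.Icc 1 N, 1 / (Nat.totient d : ℝ) ≤ Real.log N ^ c0)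
    (hE : ∀ N : ℕ, x0 ≤ N → ∀ q, 1 ≤ q → ((E N q).card : ℝ) ≤ Real.log N ^ B * (q : ℝ) ^ 2 / N)
    (s : ℝ) (hs0 : 0 < s) (hs : 2 + β - 1 / θ < s) : μH[s] (FF θ F U E m) ≠ ∞ := by
  classical
  obtain ⟨V, hV⟩ : ∃ V : ℕ, V = U + B + c0 + 1 := ⟨_, rfl⟩
  obtain ⟨Cb, hCb⟩ : ∃ Cb : ℝ, Cb = 4 * κ * (2 : ℝ) ^ (2 + β) := ⟨_, rfl⟩
  have hCb0 : 0 ≤ Cb := by rw [hCb]; positivity
  obtain ⟨j1, hj1⟩ : ∃ j1 : ℕ, j1 = max x0 3 := ⟨_, rfl⟩
  have hsc : ∀ j : ℕ, ∃ K : ℕ → Finset ℤ,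
      (∀ i, ((K i).card : ℝ) ≤ Cb * ((j : ℝ) + 1) ^ V * (2 : ℝ) ^ ((i : ℝ) * (2 + β) - j)) ∧
      (∀ i : ℕ, θ * j < i → K i = ∅) ∧
      (j1 ≤ j → ∀ α : ℝ, m ≤ α → α < m + 1 → ∀ b : ℕ → ℤ,
        ((2 ^ j : ℕ) : ℝ) / Real.log ((2 ^ j : ℕ) : ℝ) ^ U <
          HS (E (2 ^ j)) (2 ^ j) θ (fun q => F q ⌊α * q⌋) b → ∃ i, i ≤ j ∧ ⌊α * 2 ^ i⌋ ∈ K i) := by
    intro j
    by_cases hj : j1 ≤ j
    · have hj3 : 3 ≤ j := (le_max_right _ _).trans (hj1 ▸ hj)
      have hx0 : x0 ≤ 2 ^ j := ((le_max_left _ _).trans (hj1 ▸ hj)).trans (Nat.lt_two_pow_self).le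
      have h8 : 8 ≤ 2 ^ j := by
        calc 8 = 2 ^ 3 := by norm_num
          _ ≤ 2 ^ j := Nat.pow_le_pow_right (by norm_num) hj3
      obtain ⟨K, h1, h2, h3⟩ := scale_cells U B c0 j (E (2 ^ j)) F κ β hκ hβ m hF θ hθ0 hθ1 hj3
        (hc0 _ h8) (hE _ hx0)
      refine ⟨K, ?_, h2, fun _ => h3⟩
      rw [hCb, hV]
      exact h1
    · refine ⟨fun _ => ∅, fun i => ?_, fun _ _ => rfl, fun h => absurd h hj⟩
      rw [card_empty, Nat.cast_zero]
      positivity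
  choose K hK1 hK2 hK3 using hsc
  obtain ⟨I, hI⟩ : ∃ I : ℕ × ℕ × ℤ → Set ℝ, I = fun p => if p.2.1 ≤ p.1 ∧ p.2.2 ∈ K p.1 p.2.1 then
    Set.Icc ((p.2.2 : ℝ) / 2 ^ p.2.1) (((p.2.2 : ℝ) + 1) / 2 ^ p.2.1) else ∅ := ⟨_, rfl⟩
  apply hausdorff_cantelli I s hs0
  · -- the sum
    obtain ⟨g, hg⟩ : ∃ g : ℝ, g = max (2 + β - s) 0 := ⟨_, rfl⟩
    have hδ : 0 < 1 - θ * g := by
      rw [hg]
      rcases le_total (2 + β - s) 0 with h | h
      · rw [max_eq_right h]; linarith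
      · rw [max_eq_left h]
        have h1 : 2 + β - s < 1 / θ := by linarith
        have h2 : θ * (2 + β - s) < θ * (1 / θ) := mul_lt_mul_of_pos_left h1 hθ0
        rw [mul_one_div_cancel hθ0.ne'] at h2
        linarith
    have hji : ∀ j i : ℕ, ∑' k : ℤ, Metric.ediam (I (j, i, k)) ^ s ≤
        if i ∈ range (j + 1) then ENNReal.ofReal (Cb * ((j : ℝ) + 1) ^ V * (2 : ℝ) ^ (-((1 - θ * g) * j))) else 0 := by
      intro j i
      split_ifs with hi
      · rw [mem_range] at hi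
        rw [tsum_eq_sum (s := K j i)]
        · calc ∑ k ∈ K j i, Metric.ediam (I (j, i, k)) ^ s ≤
              ∑ _k ∈ K j i, ENNReal.ofReal ((1 / (2 : ℝ) ^ i) ^ s) := by
                apply sum_le_sum
                intro k hk
                rw [hI]
                simp only
                rw [if_pos ⟨by omega, hk⟩, Real.ediam_Icc, ← ENNReal.ofReal_rpow_of_nonneg (by positivity) hs0.le]
                apply ENNReal.rpow_le_rpow _ hs0.le
                apply ENNReal.ofReal_le_ofReal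
                rw [← sub_div]
                apply le_of_eq
                ring
            _ = ENNReal.ofReal (((K j i).card : ℝ) * (1 / (2 : ℝ) ^ i) ^ s) := by
                rw [sum_const, nsmul_eq_mul, ENNReal.ofReal_mul (Nat.cast_nonneg _), ENNReal.ofReal_natCast]
            _ ≤ _ := by
                apply ENNReal.ofReal_le_ofReal
                apply R_le Cb hCb0 V θ β s g hg j i _ (hK1 j i)
                intro h
                rw [hK2 j i h, card_empty]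
        · intro k hk
          rw [hI]
          simp only
          rw [if_neg (fun h => hk h.2), Metric.ediam_empty, ENNReal.zero_rpow_of_pos hs0]
      · rw [mem_range] at hi
        apply le_of_eq
        rw [ENNReal.tsum_eq_zero]
        intro k
        rw [hI]
        simp only
        rw [if_neg (fun h => hi (by omega)), Metric.ediam_empty, ENNReal.zero_rpow_of_pos hs0]
    have hsum := G_summable Cb (1 - θ * g) hδ (V + 1)
    have hne := hsum.tsum_ofReal_ne_top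
    refine ne_top_of_le_ne_top hne ?_
    rw [ENNReal.tsum_prod']
    apply ENNReal.tsum_le_tsum
    intro j
    rw [ENNReal.tsum_prod']
    calc ∑' i : ℕ, ∑' k : ℤ, Metric.ediam (I (j, i, k)) ^ s ≤ ∑' i : ℕ,
        if i ∈ range (j + 1) then ENNReal.ofReal (Cb * ((j : ℝ) + 1) ^ V * (2 : ℝ) ^ (-((1 - θ * g) * j))) else 0 :=
          ENNReal.tsum_le_tsum (hji j)
      _ = ∑ i ∈ range (j + 1), ENNReal.ofReal (Cb * ((j : ℝ) + 1) ^ V * (2 : ℝ) ^ (-((1 - θ * g) * j))) := by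
          rw [tsum_eq_sum (s := range (j + 1))]
          · apply sum_congr rfl
            intro i hi
            rw [if_pos hi]
          · intro i hi
            rw [if_neg hi]
      _ = ENNReal.ofReal (((j : ℝ) + 1) * (Cb * ((j : ℝ) + 1) ^ V * (2 : ℝ) ^ (-((1 - θ * g) * j)))) := by
          rw [sum_const, card_range, nsmul_eq_mul, ENNReal.ofReal_mul (p := (j : ℝ) + 1) (by positivity)]
          congr 1
          rw [← ENNReal.ofReal_natCast]
          push_cast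
          rfl
      _ ≤ _ := by
          apply ENNReal.ofReal_le_ofReal
          apply le_of_eq
          rw [pow_succ]
          ring
  · intro α hα
    obtain ⟨hα1, hα2, hfreq⟩ := hα
    have h1 := (hfreq.and_eventually (eventually_ge_atTop j1))
    have h2 := Nat.frequently_atTop_iff_infinite.1 h1
    apply Set.Infinite.of_image Prod.fst
    apply h2.mono
    rintro j ⟨⟨b, hsum⟩, hj⟩
    obtain ⟨i, hij, hk⟩ := hK3 j hj α hα1 hα2 b hsum
    refine ⟨(j, i, ⌊α * 2 ^ i⌋), ?_, rfl⟩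
    rw [Set.mem_ofPred_eq, hI]
    simp only
    rw [if_pos ⟨hij, hk⟩]
    have h2i : (0 : ℝ) < 2 ^ i := by positivity
    constructor
    · rw [div_le_iff₀ h2i]
      exact Int.floor_le _
    · rw [le_div_iff₀ h2i]
      exact (Int.lt_floor_add_one _).le

theorem dim_main (θ κ β : ℝ) (hθ0 : 0 < θ) (hθ1 : θ < 1) (hβ : 0 ≤ β) (F : ℕ → ℤ → Finset ℤ)
    (hF : ∀ q : ℕ, 1 ≤ q → ∀ m l : ℤ, (((Finset.Ico (m * q) ((m + 1) * q)).filter
      (fun t => ∃ b ∈ F q t, b ≡ l [ZMOD q])).card : ℝ) ≤ κ * (q : ℝ) ^ β) :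
    dimH {α : ℝ | ¬ EHP θ (fun q => F q ⌊α * q⌋)} ≤ ENNReal.ofReal (2 + β - 1 / θ) := by
  have hκ : 0 ≤ κ := by
    have h1 := hF 1 le_rfl 0 0
    simp only [Nat.cast_one, Real.one_rpow, mul_one] at h1
    exact (Nat.cast_nonneg _).trans h1
  obtain ⟨c0, hc0⟩ := Pool.Agent.H300R2.WEH.sum_log 1 le_rfl
  simp only [one_pow] at hc0
  choose B x0 E hE using scale_choice
  have hsub : {α : ℝ | ¬ EHP θ (fun q => F q ⌊α * q⌋)} ⊆ ⋃ U : ℕ, ⋃ m : ℤ, FF θ F U (E U) m := by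
    intro α hα
    by_contra hcon
    apply hα
    apply EH_of θ _ hθ1
    intro U
    refine ⟨x0 U, E U, fun N hN => (hE U N hN).2, ?_⟩
    rw [Set.mem_iUnion] at hcon
    push Not at hcon
    have h1 := hcon U
    rw [Set.mem_iUnion] at h1
    push Not at h1
    have h2 := h1 ⌊α⌋
    unfold FF at h2
    rw [Set.mem_ofPred_eq] at h2
    have h3 : ¬ ∃ᶠ j : ℕ in atTop, ∃ b : ℕ → ℤ,
        ((2 ^ j : ℕ) : ℝ) / Real.log ((2 ^ j : ℕ) : ℝ) ^ U <
          HS (E U (2 ^ j)) (2 ^ j) θ (fun q => F q ⌊α * q⌋) b :=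
      fun h => h2 ⟨Int.floor_le α, Int.lt_floor_add_one α, h⟩
    rw [not_frequently, eventually_atTop] at h3
    obtain ⟨j0, hj0⟩ := h3
    refine ⟨j0, fun j hj b => ?_⟩
    have h4 := hj0 j hj
    push Not at h4
    exact h4 b
  refine (dimH_mono hsub).trans ?_
  rw [dimH_iUnion]
  apply iSup_le
  intro U
  rw [dimH_iUnion]
  apply iSup_le
  intro m
  apply ENNReal.le_of_forall_pos_le_add
  intro ε hε _
  have h1 : μH[((Real.toNNReal (2 + β - 1 / θ) + ε : ℝ≥0) : ℝ)] (FF θ F U (E U) m) ≠ ∞ := by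
    apply FF_measure θ κ β hθ0 hθ1 hκ hβ F hF U (B U) (x0 U) c0 (E U) m hc0 (fun N hN => (hE U N hN).1)
    · rw [NNReal.coe_add]
      have : (0 : ℝ) ≤ (Real.toNNReal (2 + β - 1 / θ) : ℝ) := NNReal.coe_nonneg _
      have : (0 : ℝ) < ε := NNReal.coe_pos.2 hε
      linarith
    · rw [NNReal.coe_add]
      have h1 : 2 + β - 1 / θ ≤ (Real.toNNReal (2 + β - 1 / θ) : ℝ) := Real.le_coe_toNNReal _
      have : (0 : ℝ) < ε := NNReal.coe_pos.2 hε
      linarith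
  have h2 := dimH_le_of_hausdorffMeasure_ne_top h1
  refine h2.trans (le_of_eq ?_)
  rw [ENNReal.coe_add]
  rfl

end Pool.Agent.Y856
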