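import Pool.Agent.Y856.Metric.Dim

/-! Random classes. -/

set_option autoImplicit false

namespace Pool.Agent.Y856

open Finset
open MeasureTheory Filter Topology
open scoped ENNReal NNReal

/-- the event that some `b ∈ T(q)` is exceptional -/
def HH {Ω : Type*} (T : ℕ → Ω → Finset ℤ) (E : ℕ → Finset ℕ) (q : ℕ) : Set Ω :=
  {ω | ∃ b ∈ T q ω, (b % q).toNat ∈ E q}

/-- the event that the class `l` is represented in `T(q)` -/
def GG {Ω : Type*} (T : ℕ → Ω → Finset ℤ) (q : ℕ) (l : ℤ) : Set Ω := {ω | ∃ b ∈ T q ω, b ≡ l [ZMOD q]}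

lemma HH_eq {Ω : Type*} (T : ℕ → Ω → Finset ℤ) (E : ℕ → Finset ℕ) (q : ℕ) (hq : 1 ≤ q) :
    HH T E q = ⋃ e ∈ (E q).filter (fun e => e < q), GG T q (e : ℤ) := by
  have hq0 : (0 : ℤ) < q := by exact_mod_cast hq
  ext ω
  rw [Set.mem_iUnion₂]
  constructor
  · rintro ⟨b, hb, he⟩
    refine ⟨(b % q).toNat, mem_filter.2 ⟨he, (res_facts q hq b).1⟩, b, hb, ?_⟩
    rw [(res_facts q hq b).2]
    exact (Int.mod_modEq _ _).symm
  · rintro ⟨e, he, b, hb, hbe⟩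
    rw [mem_filter] at he
    refine ⟨b, hb, ?_⟩
    have h1 : b % q = e := by
      have h2 : b % q = (e : ℤ) % q := hbe
      rw [h2]
      exact Int.emod_eq_of_lt (by omega) (by exact_mod_cast he.2)
    rw [h1, Int.toNat_natCast]
    exact he.1

lemma HH_meas {Ω : Type*} [MeasurableSpace Ω] (T : ℕ → Ω → Finset ℤ) (E : ℕ → Finset ℕ) (q : ℕ) (hq : 1 ≤ q)
    (hT : ∀ l : ℤ, MeasurableSet (GG T q l)) : MeasurableSet (HH T E q) := by
  rw [HH_eq T E q hq]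
  exact Finset.measurableSet_biUnion _ fun e _ => hT e

lemma HH_le {Ω : Type*} [MeasurableSpace Ω] (μ : Measure Ω) [IsProbabilityMeasure μ] (T : ℕ → Ω → Finset ℤ)
    (E : ℕ → Finset ℕ) (q : ℕ) (hq : 1 ≤ q) (δ : ℝ) (hδ : 0 ≤ δ)
    (hlaw : ∀ l : ℤ, μ.real (GG T q l) ≤ δ) :
    μ (HH T E q) ≤ ENNReal.ofReal (((E q).card : ℝ) * δ) := by
  rw [HH_eq T E q hq]
  refine (measure_biUnion_finset_le _ _).trans ?_
  calc ∑ e ∈ (E q).filter (fun e => e < q), μ (GG T q (e : ℤ)) ≤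
      ∑ _e ∈ (E q).filter (fun e => e < q), ENNReal.ofReal δ := by
        apply Finset.sum_le_sum
        intro p _
        rw [← ofReal_measureReal]
        exact ENNReal.ofReal_le_ofReal (hlaw _)
    _ = ENNReal.ofReal ((((E q).filter (fun e => e < q)).card : ℝ) * δ) := by
        rw [Finset.sum_const, nsmul_eq_mul, ENNReal.ofReal_mul (Nat.cast_nonneg _), ENNReal.ofReal_natCast]
    _ ≤ _ := by
        apply ENNReal.ofReal_le_ofReal
        apply mul_le_mul_of_nonneg_right _ hδ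
        exact_mod_cast card_filter_le _ _

lemma HS_lint {Ω : Type*} [MeasurableSpace Ω] (μ : Measure Ω) [IsProbabilityMeasure μ] (T : ℕ → Ω → Finset ℤ)
    (s κ θ : ℝ) (hs1 : s ≤ 1) (hκ : 0 ≤ κ) (hθ : θ < 1)
    (hT : ∀ q : ℕ, 1 ≤ q → ∀ l : ℤ, MeasurableSet (GG T q l))
    (hlaw : ∀ q : ℕ, 1 ≤ q → ∀ l : ℤ, μ.real (GG T q l) ≤ κ * (q : ℝ) ^ (-s))
    (U B c0 j : ℕ) (E : ℕ → Finset ℕ) (hj : 3 ≤ j)
    (hc0 : ∑ d ∈ Finset.Icc 1 (2 ^ j), 1 / (Nat.totient d : ℝ) ≤ Real.log ((2 ^ j : ℕ) : ℝ) ^ c0)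
    (hE : ∀ q, 1 ≤ q → ((E q).card : ℝ) ≤ Real.log ((2 ^ j : ℕ) : ℝ) ^ B * (q : ℝ) ^ 2 / ((2 ^ j : ℕ) : ℝ)) :
    μ {ω | ∃ b : ℕ → ℤ,
      ((2 ^ j : ℕ) : ℝ) / Real.log ((2 ^ j : ℕ) : ℝ) ^ U < HS E (2 ^ j) θ (fun q => T q ω) b} ≤
      ENNReal.ofReal ((2 * κ) * ((j : ℝ) + 1) ^ (U + B + c0) * (2 : ℝ) ^ (-((1 - θ * (2 - s)) * j))) := by
  obtain ⟨N, hNdef⟩ : ∃ N : ℕ, N = 2 ^ j := ⟨_, rfl⟩
  obtain ⟨M, hMdef⟩ : ∃ M : ℕ, M = ⌊(N : ℝ) ^ θ⌋₊ := ⟨_, rfl⟩
  obtain ⟨hl0, hl1⟩ := log_two_pow j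
  rw [← hNdef] at hc0 hE hl0 hl1 ⊢
  have hN8 : 8 ≤ N := by
    rw [hNdef]
    calc 8 = 2 ^ 3 := by norm_num
      _ ≤ 2 ^ j := Nat.pow_le_pow_right (by norm_num) hj
  have hN1r : (1 : ℝ) ≤ N := by exact_mod_cast (by omega : 1 ≤ N)
  have hN0 : (0 : ℝ) < N := by linarith
  have hlpos : 0 < Real.log N := Real.log_pos (by exact_mod_cast (by omega : 1 < N))
  have hMle : (M : ℝ) ≤ (N : ℝ) ^ θ := by
    rw [hMdef]
    exact Nat.floor_le (by positivity)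
  have hMN : M ≤ N := by
    have h1 : (N : ℝ) ^ θ ≤ N := by
      calc (N : ℝ) ^ θ ≤ (N : ℝ) ^ (1 : ℝ) := Real.rpow_le_rpow_of_exponent_le hN1r hθ.le
        _ = N := Real.rpow_one _
    exact_mod_cast hMle.trans h1
  obtain ⟨f, hf⟩ : ∃ f : Ω → ℝ≥0∞, f = fun ω => ∑ q ∈ Finset.Icc 1 M,
    ENNReal.ofReal (2 * N / (Nat.totient q : ℝ)) * (HH T E q).indicator 1 ω := ⟨_, rfl⟩
  have hsub : {ω | ∃ b : ℕ → ℤ,
      (N : ℝ) / Real.log N ^ U < HS E N θ (fun q => T q ω) b} ⊆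
      {ω | ENNReal.ofReal ((N : ℝ) / Real.log N ^ U) ≤ f ω} := by
    rintro ω ⟨b, hlt⟩
    rw [Set.mem_ofPred_eq, hf]
    simp only
    refine (ENNReal.ofReal_le_ofReal hlt.le).trans ?_
    unfold HS
    rw [← hMdef, ENNReal.ofReal_sum_of_nonneg (fun q _ => by positivity), sum_filter]
    apply Finset.sum_le_sum
    intro q _
    split_ifs with h
    · have hmem : ω ∈ HH T E q := ⟨b q, h.1, h.2⟩
      rw [Set.indicator_of_mem hmem, Pi.one_apply, mul_one]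
    · exact zero_le
  have hfm : Measurable f := by
    rw [hf]
    apply Finset.measurable_fun_sum
    intro q hq
    rw [Finset.mem_Icc] at hq
    exact (measurable_one.indicator (HH_meas T E q hq.1 (hT q hq.1))).const_mul _
  have hpos : 0 < (N : ℝ) / Real.log N ^ U := by positivity
  have hmarkov := meas_ge_le_lintegral_div (μ := μ) hfm.aemeasurable
    (ε := ENNReal.ofReal ((N : ℝ) / Real.log N ^ U)) (by
      rw [Ne, ENNReal.ofReal_eq_zero]
      linarith) ENNReal.ofReal_ne_top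
  refine (measure_mono hsub).trans (hmarkov.trans ?_)
  have hint : ∫⁻ ω, f ω ∂μ ≤ ENNReal.ofReal (2 * κ * Real.log N ^ (B + c0) * (N : ℝ) ^ (θ * (2 - s))) := by
    rw [hf, lintegral_finsetSum _ (fun q hq => (measurable_one.indicator (HH_meas T E q (Finset.mem_Icc.1 hq).1
      (hT q (Finset.mem_Icc.1 hq).1))).const_mul _)]
    have hq : ∀ q ∈ Finset.Icc 1 M, ∫⁻ ω, ENNReal.ofReal (2 * N / (Nat.totient q : ℝ)) * (HH T E q).indicator 1 ω ∂μ ≤
        ENNReal.ofReal (2 * κ * Real.log N ^ B * (N : ℝ) ^ (θ * (2 - s)) * (1 / (Nat.totient q : ℝ))) := by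
      intro q hq
      rw [Finset.mem_Icc] at hq
      have hq1r : (1 : ℝ) ≤ q := by exact_mod_cast hq.1
      have hq0 : (0 : ℝ) < q := by linarith
      have hφ0 : (0 : ℝ) < Nat.totient q := by exact_mod_cast Nat.totient_pos.mpr (by omega)
      rw [lintegral_const_mul _ (measurable_one.indicator (HH_meas T E q hq.1 (hT q hq.1))),
        lintegral_indicator_one (HH_meas T E q hq.1 (hT q hq.1))]
      refine (mul_le_mul_right (HH_le μ T E q hq.1 _ (by positivity) (hlaw q hq.1)) _).trans ?_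
      rw [← ENNReal.ofReal_mul (by positivity)]
      apply ENNReal.ofReal_le_ofReal
      have h6 : (q : ℝ) ^ 2 * (q : ℝ) ^ (-s) = (q : ℝ) ^ (2 - s) := by
        rw [sub_eq_add_neg, Real.rpow_add hq0]
        congr 1
        norm_num
      have h7 : (q : ℝ) ^ (2 - s) ≤ (N : ℝ) ^ (θ * (2 - s)) := by
        rw [Real.rpow_mul hN0.le]
        apply Real.rpow_le_rpow hq0.le _ (by linarith)
        refine le_trans ?_ hMle
        exact_mod_cast hq.2
      calc 2 * N / (Nat.totient q : ℝ) * (((E q).card : ℝ) * (κ * (q : ℝ) ^ (-s))) ≤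
          2 * N / (Nat.totient q : ℝ) * ((Real.log N ^ B * (q : ℝ) ^ 2 / N) * (κ * (q : ℝ) ^ (-s))) := by
            have := hE q hq.1
            gcongr
        _ = 2 * κ * Real.log N ^ B * ((q : ℝ) ^ 2 * (q : ℝ) ^ (-s)) * (1 / (Nat.totient q : ℝ)) := by
            field_simp
        _ ≤ _ := by
            rw [h6]
            gcongr
    refine (Finset.sum_le_sum hq).trans ?_
    rw [← ENNReal.ofReal_sum_of_nonneg (fun q _ => by positivity)]
    apply ENNReal.ofReal_le_ofReal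
    rw [← mul_sum]
    have h8 : ∑ q ∈ Finset.Icc 1 M, 1 / (Nat.totient q : ℝ) ≤ Real.log N ^ c0 := by
      refine le_trans ?_ hc0
      apply sum_le_sum_of_subset_of_nonneg (Finset.Icc_subset_Icc_right hMN)
      intros
      positivity
    calc 2 * κ * Real.log N ^ B * (N : ℝ) ^ (θ * (2 - s)) * ∑ q ∈ Finset.Icc 1 M, 1 / (Nat.totient q : ℝ) ≤
        2 * κ * Real.log N ^ B * (N : ℝ) ^ (θ * (2 - s)) * Real.log N ^ c0 := by gcongr
      _ = _ := by rw [pow_add]; ring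
  refine (ENNReal.div_le_div_right hint _).trans ?_
  rw [← ENNReal.ofReal_div_of_pos hpos]
  apply ENNReal.ofReal_le_ofReal
  have h9 : (N : ℝ) ^ (θ * (2 - s)) / N = (2 : ℝ) ^ (-((1 - θ * (2 - s)) * j)) := by
    rw [hNdef, two_rpow_nat, ← Real.rpow_mul (by norm_num), ← Real.rpow_sub (by norm_num)]
    congr 1
    ring
  calc 2 * κ * Real.log N ^ (B + c0) * (N : ℝ) ^ (θ * (2 - s)) / (N / Real.log N ^ U) =
      2 * κ * (Real.log N ^ (B + c0) * Real.log N ^ U) * ((N : ℝ) ^ (θ * (2 - s)) / N) := by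
        field_simp
    _ ≤ _ := by
        rw [h9, ← pow_add, show B + c0 + U = U + B + c0 by ring]
        gcongr

theorem prob_main {Ω : Type*} [MeasurableSpace Ω] (μ : Measure Ω) [IsProbabilityMeasure μ] (T : ℕ → Ω → Finset ℤ)
    (s κ θ : ℝ) (hs1 : s ≤ 1) (hT : ∀ q : ℕ, 1 ≤ q → ∀ l : ℤ, MeasurableSet (GG T q l))
    (hlaw : ∀ q : ℕ, 1 ≤ q → ∀ l : ℤ, μ.real (GG T q l) ≤ κ * (q : ℝ) ^ (-s))
    (h : θ * (2 - s) < 1) : ∀ᵐ ω ∂μ, EHP θ (fun q => T q ω) := by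
  have hθ : θ < 1 := by
    by_contra hcon
    push Not at hcon
    nlinarith
  have hκ : 0 ≤ κ := by
    have h1 := hlaw 1 le_rfl 0
    simp only [Nat.cast_one, Real.one_rpow, mul_one] at h1
    exact measureReal_nonneg.trans h1
  obtain ⟨c0, hc0⟩ := Pool.Agent.H300R2.WEH.sum_log 1 le_rfl
  simp only [one_pow] at hc0
  choose B x0 E hE using scale_choice
  have hae : ∀ U : ℕ, ∀ᵐ ω ∂μ, ∀ᶠ j : ℕ in atTop, ¬ ∃ b : ℕ → ℤ,
      ((2 ^ j : ℕ) : ℝ) / Real.log ((2 ^ j : ℕ) : ℝ) ^ U < HS (E U (2 ^ j)) (2 ^ j) θ (fun q => T q ω) b := by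
    intro U
    obtain ⟨j1, hj1⟩ : ∃ j1 : ℕ, j1 = max (x0 U) 3 := ⟨_, rfl⟩
    have hbc := ae_eventually_notMem (μ := μ) (s := fun j => {ω | j1 ≤ j ∧ ∃ b : ℕ → ℤ,
      ((2 ^ j : ℕ) : ℝ) / Real.log ((2 ^ j : ℕ) : ℝ) ^ U < HS (E U (2 ^ j)) (2 ^ j) θ (fun q => T q ω) b}) (by
        have hsum := G_summable (2 * κ) (1 - θ * (2 - s)) (by linarith) (U + B U + c0)
        refine ne_top_of_le_ne_top hsum.tsum_ofReal_ne_top ?_
        apply ENNReal.tsum_le_tsum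
        intro j
        by_cases hj : j1 ≤ j
        · have hj3 : 3 ≤ j := (le_max_right _ _).trans (hj1 ▸ hj)
          have hx0 : x0 U ≤ 2 ^ j := ((le_max_left _ _).trans (hj1 ▸ hj)).trans (Nat.lt_two_pow_self).le
          have h8 : 8 ≤ 2 ^ j := by
            calc 8 = 2 ^ 3 := by norm_num
              _ ≤ 2 ^ j := Nat.pow_le_pow_right (by norm_num) hj3
          refine le_trans (measure_mono ?_) (HS_lint μ T s κ θ hs1 hκ hθ hT hlaw U (B U) c0 j (E U (2 ^ j))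
            hj3 (hc0 _ h8) (fun q hq => (hE U (2 ^ j) hx0).1 q hq))
          intro ω hω
          exact hω.2
        · have : {ω | j1 ≤ j ∧ ∃ b : ℕ → ℤ,
              ((2 ^ j : ℕ) : ℝ) / Real.log ((2 ^ j : ℕ) : ℝ) ^ U <
                HS (E U (2 ^ j)) (2 ^ j) θ (fun q => T q ω) b} = ∅ := by
            rw [Set.eq_empty_iff_forall_notMem]
            intro ω hω
            exact hj hω.1
          rw [this, measure_empty]
          exact zero_le)
    filter_upwards [hbc] with ω hω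
    filter_upwards [hω, eventually_ge_atTop j1] with j hj1' hj2 hcon
    exact hj1' ⟨hj2, hcon⟩
  rw [← ae_all_iff] at hae
  filter_upwards [hae] with ω hω
  apply EH_of θ _ hθ
  intro U
  refine ⟨x0 U, E U, fun N hN => (hE U N hN).2, ?_⟩
  have h3 := hω U
  rw [eventually_atTop] at h3
  obtain ⟨j0, hj0⟩ := h3
  refine ⟨j0, fun j hj b => ?_⟩
  have h4 := hj0 j hj
  push Not at h4
  exact h4 b

end Pool.Agent.Y856
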