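import Pool.Agent.Y856.Metric.Blk

/-! The exceptional cells at the scale `N = 2 ^ j`. -/

set_option autoImplicit false

namespace Pool.Agent.Y856

open Finset

lemma two_rpow_nat (j : ℕ) : ((2 ^ j : ℕ) : ℝ) = (2 : ℝ) ^ (j : ℝ) := by
  rw [Real.rpow_natCast]
  push_cast
  rfl

lemma log_two_pow (j : ℕ) : 0 ≤ Real.log ((2 ^ j : ℕ) : ℝ) ∧ Real.log ((2 ^ j : ℕ) : ℝ) ≤ (j : ℝ) + 1 := by
  have h1 : Real.log ((2 ^ j : ℕ) : ℝ) = j * Real.log 2 := by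
    push_cast
    rw [Real.log_pow]
  have h2 := Real.log_two_lt_d9
  have h3 := Real.log_two_gt_d9
  have h4 : (0 : ℝ) ≤ j := Nat.cast_nonneg j
  rw [h1]
  constructor
  · positivity
  · nlinarith

lemma scale_cells (U B c0 j : ℕ) (E : ℕ → Finset ℕ) (F : ℕ → ℤ → Finset ℤ) (κ β : ℝ) (hκ : 0 ≤ κ) (hβ : 0 ≤ β) (m : ℤ)
    (hF : ∀ q : ℕ, 1 ≤ q → ∀ m l : ℤ, (((Ico (m * q) ((m + 1) * q)).filter
      (fun t => ∃ b ∈ F q t, b ≡ l [ZMOD q])).card : ℝ) ≤ κ * (q : ℝ) ^ β)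
    (θ : ℝ) (hθ0 : 0 < θ) (hθ1 : θ < 1) (hj : 3 ≤ j)
    (hc0 : ∑ d ∈ Icc 1 (2 ^ j), 1 / (Nat.totient d : ℝ) ≤ Real.log ((2 ^ j : ℕ) : ℝ) ^ c0)
    (hE : ∀ q, 1 ≤ q → ((E q).card : ℝ) ≤ Real.log ((2 ^ j : ℕ) : ℝ) ^ B * (q : ℝ) ^ 2 / ((2 ^ j : ℕ) : ℝ)) :
    ∃ K : ℕ → Finset ℤ,
      (∀ i, ((K i).card : ℝ) ≤ (4 * κ * (2 : ℝ) ^ (2 + β)) * ((j : ℝ) + 1) ^ (U + B + c0 + 1) *
        (2 : ℝ) ^ ((i : ℝ) * (2 + β) - j)) ∧
      (∀ i : ℕ, θ * j < i → K i = ∅) ∧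
      ∀ α : ℝ, m ≤ α → α < m + 1 → ∀ b : ℕ → ℤ,
        ((2 ^ j : ℕ) : ℝ) / Real.log ((2 ^ j : ℕ) : ℝ) ^ U <
          HS E (2 ^ j) θ (fun q => F q ⌊α * q⌋) b → ∃ i, i ≤ j ∧ ⌊α * 2 ^ i⌋ ∈ K i := by
  obtain ⟨N, hNdef⟩ : ∃ N : ℕ, N = 2 ^ j := ⟨_, rfl⟩
  obtain ⟨M, hMdef⟩ : ∃ M : ℕ, M = ⌊(N : ℝ) ^ θ⌋₊ := ⟨_, rfl⟩
  obtain ⟨hl0, hl1⟩ := log_two_pow j
  rw [← hNdef] at hc0 hE hl0 hl1 ⊢
  have hN8 : 8 ≤ N := by
    rw [hNdef]
    calc 8 = 2 ^ 3 := by norm_num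
      _ ≤ 2 ^ j := Nat.pow_le_pow_right (by norm_num) hj
  have hN1 : 1 ≤ N := by omega
  have hN1r : (1 : ℝ) ≤ N := by exact_mod_cast hN1
  have hN0 : (0 : ℝ) < N := by linarith
  have hlpos : 0 < Real.log N := Real.log_pos (by exact_mod_cast (by omega : 1 < N))
  have hj0 : (0 : ℝ) ≤ j := Nat.cast_nonneg j
  have hMle : (M : ℝ) ≤ (N : ℝ) ^ θ := by
    rw [hMdef]
    exact Nat.floor_le (by positivity)
  have hMN : M ≤ N := by
    have h1 : (N : ℝ) ^ θ ≤ N := by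
      calc (N : ℝ) ^ θ ≤ (N : ℝ) ^ (1 : ℝ) := Real.rpow_le_rpow_of_exponent_le hN1r hθ1.le
        _ = N := Real.rpow_one _
    exact_mod_cast hMle.trans h1
  obtain ⟨lam, hlam⟩ : ∃ lam : ℝ, lam = N / (Real.log N ^ U * ((j : ℝ) + 1)) := ⟨_, rfl⟩
  have hlam0 : 0 < lam := by rw [hlam]; positivity
  choose K hK using fun i => block_cells N M i B c0 E F κ β hκ hβ m hF hN1 hMN lam hlam0 hc0 hE
  refine ⟨K, fun i => ?_, fun i hi => ?_, fun α hα1 hα2 b hsum => ?_⟩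
  · refine (hK i).1.trans ?_
    have h1 : ((2 : ℝ) ^ (i + 1)) ^ (2 + β) = (2 : ℝ) ^ (2 + β) * (2 : ℝ) ^ ((i : ℝ) * (2 + β)) := by
      rw [← Real.rpow_natCast, ← Real.rpow_mul (by norm_num), ← Real.rpow_add (by norm_num)]
      congr 1
      push_cast
      ring
    have h2 : (2 : ℝ) ^ ((i : ℝ) * (2 + β) - j) = (2 : ℝ) ^ ((i : ℝ) * (2 + β)) / N := by
      rw [Real.rpow_sub (by norm_num), hNdef, two_rpow_nat]
    rw [h1, h2, hlam]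
    have h3 : Real.log N ^ U * Real.log N ^ (B + c0) * ((j : ℝ) + 1) ≤ ((j : ℝ) + 1) ^ (U + B + c0 + 1) := by
      rw [← pow_add, pow_succ, show U + (B + c0) = U + B + c0 by ring]
      gcongr
    calc 2 / (N / (Real.log N ^ U * ((j : ℝ) + 1))) *
          (2 * κ * Real.log N ^ (B + c0) * ((2 : ℝ) ^ (2 + β) * (2 : ℝ) ^ ((i : ℝ) * (2 + β)))) =
          (4 * κ * (2 : ℝ) ^ (2 + β)) * (Real.log N ^ U * Real.log N ^ (B + c0) * ((j : ℝ) + 1)) *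
            ((2 : ℝ) ^ ((i : ℝ) * (2 + β)) / N) := by
          field_simp
          ring
      _ ≤ _ := by gcongr
  · apply (hK i).2.1
    by_contra hne
    obtain ⟨q, hq⟩ := nonempty_iff_ne_empty.2 hne
    have h1 := (blk_le hq).1
    have h2 := (mem_blk.1 hq).1.2
    have h3 : ((2 ^ i : ℕ) : ℝ) ≤ (N : ℝ) ^ θ := by
      have : ((2 ^ i : ℕ) : ℝ) ≤ M := by exact_mod_cast h1.trans h2
      exact this.trans hMle
    rw [two_rpow_nat, hNdef, two_rpow_nat, ← Real.rpow_mul (by norm_num)] at h3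
    have h4 := (Real.rpow_le_rpow_left_iff (by norm_num : (1 : ℝ) < 2)).1 h3
    linarith
  · by_contra hcon
    push Not at hcon
    have h1 : ∀ i ∈ range (j + 1),
        ∑ q ∈ (blk M i).filter (fun q => b q ∈ F q ⌊α * q⌋ ∧ (b q % q).toNat ∈ E q),
          2 * N / (Nat.totient q : ℝ) ≤ lam := by
      intro i hi
      rw [mem_range] at hi
      by_contra hlt
      push Not at hlt
      exact hcon i (by omega) ((hK i).2.2 α hα1 hα2 b hlt)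
    have h2 : HS E N θ (fun q => F q ⌊α * q⌋) b =
        ∑ i ∈ range (j + 1), ∑ q ∈ (blk M i).filter (fun q => b q ∈ F q ⌊α * q⌋ ∧ (b q % q).toNat ∈ E q),
          2 * N / (Nat.totient q : ℝ) := by
      unfold HS
      rw [← hMdef]
      have hmaps : ∀ q ∈ (Icc 1 M).filter (fun q => b q ∈ F q ⌊α * q⌋ ∧ (b q % q).toNat ∈ E q),
          Nat.log 2 q ∈ range (j + 1) := by
        intro q hq
        rw [mem_filter, mem_Icc] at hq
        rw [mem_range, Nat.lt_succ_iff]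
        have h3 : Nat.log 2 q ≤ Nat.log 2 (2 ^ j) := Nat.log_mono_right (by omega)
        rwa [Nat.log_pow (by norm_num)] at h3
      rw [← sum_fiberwise_of_maps_to hmaps]
      apply sum_congr rfl
      intro i _
      unfold blk
      rw [filter_comm]
    rw [h2] at hsum
    have h4 : ((N : ℝ) / Real.log N ^ U) = ∑ i ∈ range (j + 1), lam := by
      rw [sum_const, card_range, nsmul_eq_mul, hlam]
      push_cast
      field_simp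
    rw [h4] at hsum
    exact absurd (sum_le_sum h1) (not_le.2 hsum)

end Pool.Agent.Y856
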